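import Mathlib

set_option autoImplicit false

/-!
The group of order `q ^ 5` behind the optimally pseudorandom `K_4`-free graphs (MP_fce80c_co).
-/

namespace Pool.Agent.FCE.T4

/-- The underlying set `F ^ 5` of the group. -/
@[ext] structure Hx (F : Type) where
  k : F
  b : F
  c : F
  d : F
  e : F

/-- `Hx F` is `F ^ 5`. -/
def hxEquiv (F : Type) : Hx F ≃ F × F × F × F × F where
  toFun h := (h.k, h.b, h.c, h.d, h.e)
  invFun p := ⟨p.1, p.2.1, p.2.2.1, p.2.2.2.1, p.2.2.2.2⟩
  left_inv _ := rfl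
  right_inv _ := rfl

noncomputable instance (F : Type) : DecidableEq (Hx F) := Classical.decEq _

noncomputable instance (F : Type) [Fintype F] : Fintype (Hx F) :=
  Fintype.ofEquiv _ (hxEquiv F).symm

theorem card_hx (F : Type) [Fintype F] : Fintype.card (Hx F) = Fintype.card F ^ 5 := by
  rw [Fintype.card_congr (hxEquiv F), Fintype.card_prod, Fintype.card_prod, Fintype.card_prod,
    Fintype.card_prod]
  ring

variable {F : Type} [Field F]

instance : Mul (Hx F) :=
  ⟨fun u v => ⟨u.k + v.k, u.b + v.b, u.c + v.c, u.d + v.d, u.e + v.e + u.k * v.d + u.b * v.c⟩⟩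

instance : One (Hx F) := ⟨⟨0, 0, 0, 0, 0⟩⟩

instance : Inv (Hx F) := ⟨fun u => ⟨-u.k, -u.b, -u.c, -u.d, -u.e + u.k * u.d + u.b * u.c⟩⟩

@[simp] theorem mul_k (u v : Hx F) : (u * v).k = u.k + v.k := rfl
@[simp] theorem mul_b (u v : Hx F) : (u * v).b = u.b + v.b := rfl
@[simp] theorem mul_c (u v : Hx F) : (u * v).c = u.c + v.c := rfl
@[simp] theorem mul_d (u v : Hx F) : (u * v).d = u.d + v.d := rfl
@[simp] theorem mul_e (u v : Hx F) : (u * v).e = u.e + v.e + u.k * v.d + u.b * v.c := rfl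
@[simp] theorem one_k : (1 : Hx F).k = 0 := rfl
@[simp] theorem one_b : (1 : Hx F).b = 0 := rfl
@[simp] theorem one_c : (1 : Hx F).c = 0 := rfl
@[simp] theorem one_d : (1 : Hx F).d = 0 := rfl
@[simp] theorem one_e : (1 : Hx F).e = 0 := rfl
@[simp] theorem inv_k (u : Hx F) : (u⁻¹).k = -u.k := rfl
@[simp] theorem inv_b (u : Hx F) : (u⁻¹).b = -u.b := rfl
@[simp] theorem inv_c (u : Hx F) : (u⁻¹).c = -u.c := rfl
@[simp] theorem inv_d (u : Hx F) : (u⁻¹).d = -u.d := rfl
@[simp] theorem inv_e (u : Hx F) : (u⁻¹).e = -u.e + u.k * u.d + u.b * u.c := rfl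

instance : Group (Hx F) :=
  Group.ofLeftAxioms
    (by intro u v w; ext <;> simp <;> ring)
    (by intro u; ext <;> simp)
    (by intro u; ext <;> simp <;> ring)

/-- The generators. -/
def g (a s : F) : Hx F := ⟨s, s * a, s * a ^ 2, s * a ^ 3, a ^ 3 * s ^ 2⟩

@[simp] theorem g_k (a s : F) : (g a s).k = s := rfl
@[simp] theorem g_b (a s : F) : (g a s).b = s * a := rfl
@[simp] theorem g_c (a s : F) : (g a s).c = s * a ^ 2 := rfl
@[simp] theorem g_d (a s : F) : (g a s).d = s * a ^ 3 := rfl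
@[simp] theorem g_e (a s : F) : (g a s).e = a ^ 3 * s ^ 2 := rfl

variable [CharP F 2]

theorem g_mul_g (a s t : F) : g a s * g a t = g a (s + t) := by
  have h2 : (2 : F) = 0 := CharTwo.two_eq_zero
  ext
  · simp
  · simp; ring
  · simp; ring
  · simp; ring
  · simp
    linear_combination (0 : F) * h2

theorem g_zero (a : F) : g a 0 = (1 : Hx F) := by
  ext <;> simp

theorem g_mul_self (a s : F) : g a s * g a s = (1 : Hx F) := by
  rw [g_mul_g, CharTwo.add_self_eq_zero, g_zero]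

theorem mul_g_mul_g (h : Hx F) (a s : F) : h * g a s * g a s = h := by
  rw [mul_assoc, g_mul_self, mul_one]

end Pool.Agent.FCE.T4
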