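import Pool.Agent.FCE.T4.Group

set_option autoImplicit false

/-!
The symplectic vectors attached to the elements of the group (MP_fce80c_co).
-/

namespace Pool.Agent.FCE.T4

variable {F : Type} [Field F]

/-- The vectors. -/
def X (l : Hx F) (α : F) : Fin 6 → F :=
  ![l.c ^ 2 + l.b * l.d + α * (l.e + l.k * l.d), l.b + α * l.k, α, 1, l.d + α * l.c,
    l.e + l.b * l.c + α * (l.b ^ 2 + l.c * l.k)]

/-- The symplectic form (characteristic two). -/
def om (x y : Fin 6 → F) : F :=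
  x 0 * y 3 + x 3 * y 0 + x 1 * y 4 + x 4 * y 1 + x 2 * y 5 + x 5 * y 2

theorem om_comm (x y : Fin 6 → F) : om x y = om y x := by
  unfold om
  ring

theorem om_add_left (x x' y : Fin 6 → F) : om (x + x') y = om x y + om x' y := by
  simp only [om, Pi.add_apply]
  ring

theorem om_smul_left (c : F) (x y : Fin 6 → F) : om (c • x) y = c * om x y := by
  simp only [om, Pi.smul_apply, smul_eq_mul]
  ring

theorem om_X (l m : Hx F) (α α' : F) : om (X l α) (X m α') =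
    (l.c ^ 2 + l.b * l.d + α * (l.e + l.k * l.d)) + (m.c ^ 2 + m.b * m.d + α' * (m.e + m.k * m.d))
    + (l.b + α * l.k) * (m.d + α' * m.c) + (l.d + α * l.c) * (m.b + α' * m.k)
    + α * (m.e + m.b * m.c + α' * (m.b ^ 2 + m.c * m.k))
    + (l.e + l.b * l.c + α * (l.b ^ 2 + l.c * l.k)) * α' := by
  simp only [om, X, Matrix.cons_val]
  ring

variable [CharP F 2]

theorem X_mul (l : Hx F) (a s : F) : X (l * g a s) a = X l a := by
  have h2 : (2 : F) = 0 := CharTwo.two_eq_zero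
  unfold X
  simp only [mul_k, mul_b, mul_c, mul_d, mul_e, g_k, g_b, g_c, g_d, g_e]
  congr 1
  · linear_combination (a*l.d*s + a^2*l.c*s + a^3*l.b*s + a^4*l.k*s + (2)*a^4*s^2) * h2
  congr 1
  · linear_combination (a*s) * h2
  congr 1
  congr 1
  congr 1
  · linear_combination (a^3*s) * h2
  congr 1
  linear_combination (a*l.c*s + (2)*a^2*l.b*s + a^3*l.k*s + (2)*a^3*s^2) * h2

theorem om_same (l : Hx F) (α α' : F) : om (X l α) (X l α') = 0 := by
  have h2 : (2 : F) = 0 := CharTwo.two_eq_zero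
  rw [om_X]
  linear_combination (l.b*l.c*α + l.b*l.c*α' + (2)*l.b*l.d + l.b^2*α*α' + (2)*l.c*l.k*α*α'
    + l.c^2 + l.d*l.k*α + l.d*l.k*α' + l.e*α + l.e*α') * h2

theorem om_two (l : Hx F) (a s a' s' α α' : F) :
    om (X l α) (X (l * g a s * g a' s') α')
      = s * s' * (a + a') ^ 2 * (α + a) * (α' + a') := by
  have h2 : (2 : F) = 0 := CharTwo.two_eq_zero
  rw [om_X]
  simp only [mul_k, mul_b, mul_c, mul_d, mul_e, g_k, g_b, g_c, g_d, g_e]
  linear_combination (a*l.b*s*α*α' + a*l.c*s*α + a*l.d*s + (-1)*a^2*a'*s*s'*α' + a^2*l.b*s*α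
    + a^2*l.b*s*α' + a^2*l.c*s + a^2*l.k*s*α*α' + a^2*s^2*α*α' + a^3*l.b*s + a^3*l.k*s*α
    + a^3*l.k*s*α' + a^3*s^2*α + a^3*s^2*α' + a^4*s^2 + a'*l.b*s'*α*α' + a'*l.c*s'*α
    + a'*l.d*s' + a'^2*l.b*s'*α + a'^2*l.b*s'*α' + a'^2*l.c*s' + a'^2*l.k*s'*α*α'
    + a'^2*s'^2*α*α' + a'^3*l.b*s' + a'^3*l.k*s'*α + a'^3*l.k*s'*α' + a'^3*s*s'*α'
    + a'^3*s'^2*α + a'^3*s'^2*α' + a'^4*s'^2 + l.b*l.c*α + l.b*l.c*α' + (2)*l.b*l.d
    + l.b^2*α*α' + (2)*l.c*l.k*α*α' + l.c*s*α*α' + l.c*s'*α*α' + l.c^2 + l.d*l.k*α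
    + l.d*l.k*α' + l.d*s*α' + l.d*s'*α' + l.e*α + l.e*α') * h2

/-- A common step: `m = l g(a,s) g(a',s')`. -/
def Wit (l m : Hx F) (a s a' s' : F) : Prop := m = l * g a s * g a' s'

theorem Wit.symm {l m : Hx F} {a s a' s' : F} (h : Wit l m a s a' s') : Wit m l a' s' a s := by
  unfold Wit at *
  rw [h, mul_g_mul_g, mul_g_mul_g]

theorem Wit.om {l m : Hx F} {a s a' s' : F} (h : Wit l m a s a' s') (α α' : F) :
    T4.om (X l α) (X m α') = s * s' * (a + a') ^ 2 * (α + a) * (α' + a') := by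
  rw [h, om_two]

/-- The triangle relation, centred at `j`. -/
theorem triangle {li lj lk : Hx F} {aij sij aji sji ajk sjk akj skj aik sik aki ski : F}
    (hij : Wit li lj aij sij aji sji) (hjk : Wit lj lk ajk sjk akj skj)
    (hik : Wit li lk aik sik aki ski) :
    sik * ski * (aik + aki) ^ 2 * (aij + aik) * (akj + aki)
      = sji * sjk * (aji + ajk) ^ 2 * (aij + aji) * (akj + ajk) := by
  have h1 := hik.om aij akj
  have e1 : X li aij = X (lj * g aji sji) aij := by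
    rw [hij, mul_g_mul_g, X_mul]
  have e2 : X lk akj = X (lj * g aji sji * g aji sji * g ajk sjk) akj := by
    rw [mul_g_mul_g, hjk, X_mul]
  have e3 := om_two (lj * g aji sji) aji sji ajk sjk aij akj
  rw [← e1, ← e2] at e3
  rw [← h1, e3]

end Pool.Agent.FCE.T4
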