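import Pool.Agent.FCE.Mg_MP_fce80c_co.G001
import Pool.Agent.FCE.Mg_MP_fce80c_co.G002

set_option autoImplicit false

/-!
Optimally pseudorandom `K_4`-free graphs: assembly (MP_fce80c_co).
-/

namespace Pool.Agent.FCE.T4

open Finset

/-- The graphs with `q ^ 5` vertices, `q = 2 ^ m`, `m` odd. -/
theorem explicit_graph (m : ℕ) (hm : Odd m) :
    ∃ (V : Type) (_ : Fintype V) (G : SimpleGraph V) (_ : G.LocallyFinite),
      Fintype.card V = (2 ^ m) ^ 5 ∧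
      G.IsRegularOfDegree (2 ^ (2 * m - 1) * (2 ^ m - 1) ^ 2) ∧
      G.CliqueFree 4 ∧
      Jumbled G (((2 : ℝ) ^ m - 1) ^ 2 / (2 * (2 ^ m) ^ 3)) (9 / 2 * ((2 : ℝ) ^ m) ^ 2) := by
  classical
  have hm0 : m ≠ 0 := by
    rintro rfl
    exact absurd hm (by decide)
  have : Fact (Nat.Prime 2) := ⟨Nat.prime_two⟩
  have : Finite (GaloisField 2 m) := inferInstance
  let _ : Fintype (GaloisField 2 m) := Fintype.ofFinite _
  have hcard : Fintype.card (GaloisField 2 m) = 2 ^ m := by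
    rw [← Nat.card_eq_fintype_card, GaloisField.card 2 m hm0]
  obtain ⟨ψ, h1, h2, h3, h4⟩ := exists_char (GaloisField 2 m)
  have h5 : ∑ a, ψ a = 0 := by
    have := h4 1 one_ne_zero
    simpa using this
  have hV : Fintype.card (Hx (GaloisField 2 m)) = (2 ^ m) ^ 5 := by rw [card_hx, hcard]
  have hdeg : 2 * (2 ^ (2 * m - 1) * (2 ^ m - 1) ^ 2)
      = Fintype.card (GaloisField 2 m) ^ 2 * (Fintype.card (GaloisField 2 m) - 1) ^ 2 := by
    rw [hcard, ← mul_assoc, ← pow_succ', ← pow_mul]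
    congr 2
    omega
  let inst : (graph ψ).LocallyFinite := fun v => inferInstance
  have hreg : (graph ψ).IsRegularOfDegree (2 ^ (2 * m - 1) * (2 ^ m - 1) ^ 2) :=
    graph_regular ψ h3 h5 _ hdeg
  refine ⟨Hx (GaloisField 2 m), inferInstance, graph ψ, inst, hV, hreg,
    graph_cliqueFree ψ h3 (fun x hx => cube_root m hm hcard x hx), ?_⟩
  have hreg' : (graph ψ).IsRegularOfDegree (2 ^ (2 * m - 1) * (2 ^ m - 1) ^ 2) := by
    intro v
    rw [← hreg v]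
  have hj := OPG.jumbled_of_spectral (graph ψ) _ hreg' (by rw [hV]; positivity)
    (9 / 2 * ((2 : ℝ) ^ m) ^ 2) (by positivity) (by
      intro x hx
      have := spectral ψ h1 h2 h4 ψ h3 h5 x hx
      rw [hcard] at this
      push_cast at this
      exact this)
  have hp : (((2 ^ (2 * m - 1) * (2 ^ m - 1) ^ 2 : ℕ) : ℝ)
      / (Fintype.card (Hx (GaloisField 2 m)) : ℝ)) = ((2 : ℝ) ^ m - 1) ^ 2 / (2 * (2 ^ m) ^ 3) := by
    have h6 : 2 * ((2 ^ (2 * m - 1) * (2 ^ m - 1) ^ 2 : ℕ) : ℝ)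
        = ((2 : ℝ) ^ m) ^ 2 * ((2 : ℝ) ^ m - 1) ^ 2 := by
      have h7 : (2 * (2 ^ (2 * m - 1) * (2 ^ m - 1) ^ 2 : ℕ) : ℝ)
          = (((2 ^ m) ^ 2 * (2 ^ m - 1) ^ 2 : ℕ) : ℝ) := by
        rw [hcard] at hdeg
        exact_mod_cast hdeg
      rw [h7]
      have h8 : 1 ≤ 2 ^ m := Nat.one_le_two_pow
      push_cast [Nat.cast_sub h8]
      ring
    rw [hV]
    push_cast at h6 ⊢
    have h9 : (0 : ℝ) < 2 ^ m := by positivity
    rw [div_eq_div_iff (by positivity) (by positivity)]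
    linear_combination (((2 : ℝ) ^ m) ^ 3) * h6
  rw [hp] at hj
  exact hj

/-- Jumbledness passes to induced subgraphs. -/
theorem jumbled_comap {V W : Type} (G : SimpleGraph V) (f : W ↪ V) {p β : ℝ}
    (h : Jumbled G p β) : Jumbled (G.comap f) p β := by
  classical
  intro X Y
  have h1 := h (X.map f) (Y.map f)
  rw [Finset.card_map, Finset.card_map] at h1
  have h2 : edgeCount (G.comap f) X Y = edgeCount G (X.map f) (Y.map f) := by
    unfold edgeCount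
    apply Nat.card_congr
    refine Equiv.ofBijective (fun e => ⟨(f e.1.1, f e.1.2), by
      refine ⟨?_, ?_, ?_⟩
      · exact Finset.mem_map_of_mem f e.2.1
      · exact Finset.mem_map_of_mem f e.2.2.1
      · exact e.2.2.2⟩) ⟨?_, ?_⟩
    · rintro ⟨⟨x, y⟩, h1⟩ ⟨⟨x', y'⟩, h1'⟩ h2
      simp only [Subtype.mk.injEq, Prod.mk.injEq] at h2
      simp only [Subtype.mk.injEq, Prod.mk.injEq]
      exact ⟨f.injective h2.1, f.injective h2.2⟩
    · rintro ⟨⟨x, y⟩, h1, h2, h3⟩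
      obtain ⟨x', hx', rfl⟩ := Finset.mem_map.1 h1
      obtain ⟨y', hy', rfl⟩ := Finset.mem_map.1 h2
      exact ⟨⟨(x', y'), hx', hy', h3⟩, rfl⟩
  rw [h2]
  exact h1

/-- The choice of `q` for a given number of vertices. -/
theorem exists_exponent (n : ℕ) (hn : 1 ≤ n) :
    ∃ m : ℕ, Odd m ∧ n ≤ (2 ^ m) ^ 5 ∧ (2 ^ m) ^ 5 ≤ 1024 * n := by
  classical
  have hex : ∃ j : ℕ, n ≤ (2 ^ (2 * j + 1)) ^ 5 := by
    refine ⟨n, ?_⟩
    have h1 : n < 2 ^ n := Nat.lt_two_pow_self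
    have h2 : 2 ^ n ≤ 2 ^ (2 * n + 1) := Nat.pow_le_pow_right (by norm_num) (by omega)
    have h3 : 2 ^ (2 * n + 1) ≤ (2 ^ (2 * n + 1)) ^ 5 := Nat.le_self_pow (by norm_num) _
    omega
  have h1 := Nat.find_spec hex
  rcases Nat.eq_zero_or_pos (Nat.find hex) with h0 | h0
  · rw [h0] at h1
    refine ⟨1, by decide, by simpa using h1, ?_⟩
    norm_num
    omega
  · obtain ⟨j, hj⟩ : ∃ j, Nat.find hex = j + 1 := ⟨Nat.find hex - 1, by omega⟩
    have h2 := Nat.find_min hex (m := j) (by omega)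
    rw [hj] at h1
    refine ⟨2 * (j + 1) + 1, ⟨j + 1, rfl⟩, h1, ?_⟩
    have h3 : (2 ^ (2 * (j + 1) + 1)) ^ 5 = 1024 * (2 ^ (2 * j + 1)) ^ 5 := by ring
    rw [h3]
    omega

theorem numeric (q n : ℝ) (hq : 2 ≤ q) (hn : 1 ≤ n) (h1 : n ≤ q ^ 5) (h2 : q ^ 5 ≤ 1024 * n) :
    0 < (q - 1) ^ 2 / (2 * q ^ 3) ∧ (q - 1) ^ 2 / (2 * q ^ 3) ≤ 1 ∧
    (1 / 32) * n ^ (-(1 / 5) : ℝ) ≤ (q - 1) ^ 2 / (2 * q ^ 3) ∧
    (q - 1) ^ 2 / (2 * q ^ 3) ≤ n ^ (-(1 / 5) : ℝ) ∧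
    9 / 2 * q ^ 2 ≤ 2359296 * Real.sqrt ((q - 1) ^ 2 / (2 * q ^ 3) * n) ∧
    9 / 2 * q ^ 2 ≤ 2359296 * ((q - 1) ^ 2 / (2 * q ^ 3)) ^ 3 * n := by
  set p : ℝ := (q - 1) ^ 2 / (2 * q ^ 3) with hp
  have hq0 : 0 < q := by linarith
  have hn0 : 0 < n := by linarith
  have hplo : 1 / (8 * q) ≤ p := by
    rw [hp, div_le_div_iff₀ (by positivity) (by positivity)]
    nlinarith [mul_pos hq0 hq0, pow_pos hq0 3, mul_nonneg (sub_nonneg.2 hq) hq0.le]
  have hphi : p ≤ 1 / (2 * q) := by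
    rw [hp, div_le_div_iff₀ (by positivity) (by positivity)]
    nlinarith [mul_pos hq0 hq0, pow_pos hq0 3]
  have hp0 : 0 < p := lt_of_lt_of_le (by positivity) hplo
  have hr : (n ^ (1 / 5 : ℝ)) ≤ q := by
    have := Real.rpow_le_rpow hn0.le h1 (by norm_num : (0 : ℝ) ≤ 1 / 5)
    rw [← Real.rpow_natCast q 5, ← Real.rpow_mul hq0.le] at this
    norm_num at this
    norm_num
    exact this
  have hr2 : q ≤ 4 * n ^ (1 / 5 : ℝ) := by
    have := Real.rpow_le_rpow (by positivity) h2 (by norm_num : (0 : ℝ) ≤ 1 / 5)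
    rw [← Real.rpow_natCast q 5, ← Real.rpow_mul hq0.le, Real.mul_rpow (by norm_num) hn0.le] at this
    have h4 : (1024 : ℝ) ^ (1 / 5 : ℝ) = 4 := by
      rw [show (1024 : ℝ) = 4 ^ (5 : ℝ) by norm_num, ← Real.rpow_mul (by norm_num)]
      norm_num
    rw [h4] at this
    norm_num at this
    norm_num
    exact this
  have hrn : n ^ (-(1 / 5) : ℝ) = (n ^ (1 / 5 : ℝ))⁻¹ := Real.rpow_neg hn0.le _
  have hr0 : 0 < n ^ (1 / 5 : ℝ) := by positivity
  refine ⟨hp0, ?_, ?_, ?_, ?_, ?_⟩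
  · refine hphi.trans ?_
    rw [div_le_one (by positivity)]
    linarith
  · refine le_trans ?_ hplo
    have e1 : (1 / 32) * (n ^ (1 / 5 : ℝ))⁻¹ = 1 / (32 * n ^ (1 / 5 : ℝ)) := by
      field_simp
    rw [hrn, e1]
    apply one_div_le_one_div_of_le (by positivity)
    linarith
  · refine hphi.trans ?_
    rw [hrn, ← one_div]
    apply one_div_le_one_div_of_le hr0
    linarith
  · have h5 : (q ^ 2 / 91) ^ 2 ≤ p * n := by
      have h6 : 1 / (8 * q) * (q ^ 5 / 1024) ≤ p * n :=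
        mul_le_mul hplo (by linarith) (by positivity) hp0.le
      refine le_trans ?_ h6
      rw [show 1 / (8 * q) * (q ^ 5 / 1024) = q ^ 4 / 8192 by field_simp; ring]
      have : 0 < q ^ 4 := by positivity
      nlinarith
    have h6 : q ^ 2 / 91 ≤ Real.sqrt (p * n) := Real.le_sqrt_of_sq_le h5
    have : 0 < q ^ 2 := by positivity
    nlinarith
  · have h5 : (1 / (8 * q)) ^ 3 * (q ^ 5 / 1024) ≤ p ^ 3 * n :=
      mul_le_mul (pow_le_pow_left₀ (by positivity) hplo 3) (by linarith) (by positivity)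
        (by positivity)
    have h6 : (1 / (8 * q)) ^ 3 * (q ^ 5 / 1024) = q ^ 2 / 524288 := by
      field_simp
      ring
    rw [h6] at h5
    have : 0 < q ^ 2 := by positivity
    nlinarith

/-- Optimally pseudorandom `K_4`-free graphs on every number of vertices. -/
theorem all_n : ∃ C : ℝ, 0 < C ∧ ∃ c : ℝ, 0 < c ∧ ∃ p : ℕ → ℝ,
    Filter.Tendsto p Filter.atTop (nhds 0) ∧
    ∀ n : ℕ, 1 ≤ n → 0 < p n ∧ p n ≤ 1 ∧ c * (n : ℝ) ^ (-(1 / 5) : ℝ) ≤ p n ∧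
      p n ≤ (n : ℝ) ^ (-(1 / 5) : ℝ) ∧
      ∃ (G : SimpleGraph (Fin n)) (β : ℝ), G.CliqueFree 4 ∧ 0 < β ∧
        β ≤ C * Real.sqrt (p n * (n : ℝ)) ∧ β ≤ C * (p n) ^ 3 * (n : ℝ) ∧ Jumbled G (p n) β := by
  classical
  have h : ∀ n : ℕ, ∃ p : ℝ, 1 ≤ n → (0 < p ∧ p ≤ 1 ∧ (1 / 32) * (n : ℝ) ^ (-(1 / 5) : ℝ) ≤ p ∧
      p ≤ (n : ℝ) ^ (-(1 / 5) : ℝ) ∧
      ∃ (G : SimpleGraph (Fin n)) (β : ℝ), G.CliqueFree 4 ∧ 0 < β ∧
        β ≤ 2359296 * Real.sqrt (p * (n : ℝ)) ∧ β ≤ 2359296 * p ^ 3 * (n : ℝ) ∧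
        Jumbled G p β) := by
    intro n
    by_cases hn : 1 ≤ n
    · obtain ⟨m, hm, h1, h2⟩ := exists_exponent n hn
      obtain ⟨V, _, G, _, hV, -, hfree, hjum⟩ := explicit_graph m hm
      have hm1 : 1 ≤ m := by
        rcases Nat.eq_zero_or_pos m with h0 | h0
        · rw [h0] at hm
          exact absurd hm (by decide)
        · exact h0
      have hq : (2 : ℝ) ≤ 2 ^ m := by
        calc (2 : ℝ) = 2 ^ 1 := by norm_num
          _ ≤ 2 ^ m := pow_le_pow_right₀ (by norm_num) hm1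
      obtain ⟨k1, k2, k3, k4, k5, k6⟩ := numeric ((2 : ℝ) ^ m) n hq (by exact_mod_cast hn)
        (by exact_mod_cast h1) (by exact_mod_cast h2)
      obtain ⟨f⟩ : Nonempty (Fin n ↪ V) := by
        apply Function.Embedding.nonempty_of_card_le
        rw [Fintype.card_fin, hV]
        exact h1
      refine ⟨_, fun _ => ⟨k1, k2, k3, k4, G.comap f, 9 / 2 * ((2 : ℝ) ^ m) ^ 2, ?_, by positivity,
        k5, k6, jumbled_comap G f hjum⟩⟩
      exact hfree.comap ⟨(SimpleGraph.Embedding.comap f G).toCopy⟩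
    · exact ⟨0, fun h => absurd h hn⟩
  choose p hp using h
  refine ⟨2359296, by norm_num, 1 / 32, by norm_num, p, ?_, hp⟩
  have hlim : Filter.Tendsto (fun n : ℕ => (n : ℝ) ^ (-(1 / 5) : ℝ)) Filter.atTop (nhds 0) :=
    (tendsto_rpow_neg_atTop (by norm_num : (0 : ℝ) < 1 / 5)).comp tendsto_natCast_atTop_atTop
  refine tendsto_of_tendsto_of_tendsto_of_le_of_le' tendsto_const_nhds hlim ?_ ?_
  · filter_upwards [Filter.eventually_ge_atTop 1] with n hn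
    exact (hp n hn).1.le
  · filter_upwards [Filter.eventually_ge_atTop 1] with n hn
    exact (hp n hn).2.2.2.1

end Pool.Agent.FCE.T4
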